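import Pool.Agent.Helper73.M3.Defs

/-!
# Parts G1, G2, G2' of the sharp Mahler inequality in `ℝ³`
-/

set_option autoImplicit false

noncomputable section

namespace Helper74.M3G

open MeasureTheory Set Helper73.M3

/-- lower bound of an integral by an antiderivative of a minorant -/
lemma seg {a b : ℝ} (hab : a ≤ b) {f F F' : ℝ → ℝ} (hf : Continuous f)
    (hF : ∀ t ∈ Icc a b, HasDerivAt F (F' t) t) (hle : ∀ t ∈ Icc a b, F' t ≤ f t) :
    F b - F a ≤ ∫ t in a..b, f t := by
  apply intervalIntegral.sub_le_integral_of_hasDeriv_right_of_le hab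
  · exact fun t ht => (hF t ht).continuousAt.continuousWithinAt
  · exact fun t ht => (hF t (Ioo_subset_Icc_self ht)).hasDerivWithinAt
  · exact hf.integrableOn_Icc
  · exact fun t ht => hle t (Ioo_subset_Icc_self ht)

lemma hasDeriv_S {A G t : ℝ} (hA : A ≠ 0) (hs : (1 - t) * A + t * G ≠ 0) :
    HasDerivAt (fun t => 16 * t ^ 3 / (A * ((1 - t) * A + t * G) ^ 3))
      (3 * t ^ 2 * (16 / ((1 - t) * A + t * G) ^ 4)) t := by
  have h1 : HasDerivAt (fun t : ℝ => (1 - t) * A + t * G) ((0 - 1) * A + 1 * G) t :=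
    (((hasDerivAt_const t (1 : ℝ)).sub (hasDerivAt_id t)).mul_const A).add
      ((hasDerivAt_id t).mul_const G)
  have h2 : HasDerivAt (fun t : ℝ => A * ((1 - t) * A + t * G) ^ 3)
      (A * (3 * ((1 - t) * A + t * G) ^ 2 * ((0 - 1) * A + 1 * G))) t := by
    have := (h1.pow 3).const_mul A
    refine this.congr_deriv ?_
    norm_num
  have h3 : HasDerivAt (fun t : ℝ => 16 * t ^ 3) (16 * (3 * t ^ 2)) t := by
    have := (hasDerivAt_pow 3 t).const_mul (16 : ℝ)
    refine this.congr_deriv ?_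
    norm_num
  have h4 : A * ((1 - t) * A + t * G) ^ 3 ≠ 0 := by positivity
  have h5 := h3.div h2 h4
  refine h5.congr_deriv ?_
  field_simp
  ring

lemma hasDeriv_C (t : ℝ) : HasDerivAt (fun t : ℝ => t ^ 3) (3 * t ^ 2) t := by
  have := hasDerivAt_pow 3 t
  refine this.congr_deriv ?_
  norm_num

lemma hasDeriv_Q {c t : ℝ} (hc : c ≠ 0) (ht : t ≠ 0) :
    HasDerivAt (fun t => -(48 / (c ^ 4 * t))) (3 * t ^ 2 * (16 / (t * c) ^ 4)) t := by
  have h1 : HasDerivAt (fun t : ℝ => c ^ 4 * t) (c ^ 4 * 1) t := (hasDerivAt_id t).const_mul _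
  have h2 := ((hasDerivAt_const t (48 : ℝ)).div h1 (by positivity)).neg
  refine h2.congr_deriv ?_
  field_simp
  ring

lemma seg_nonneg {a b : ℝ} (hab : a ≤ b) {f : ℝ → ℝ} (hf : ∀ t ∈ Icc a b, 0 ≤ f t) :
    0 ≤ ∫ t in a..b, f t := by
  apply intervalIntegral.integral_nonneg hab
  exact hf

theorem g1 (D G : ℝ) (hD0 : 0 ≤ D) (hD1 : D < 1) (hG0 : 0 ≤ G) (hG4 : G ≤ 4)
    (r : ℝ → ℝ) (hr : Continuous r)
    (hrb : ∀ t ∈ Icc (0 : ℝ) 1, r t ≤ Ph (t * (4 * (3 - D) / (3 * (1 - D))))) :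
    27 * (1 - D) ^ 4 / (3 - D) ^ 3 +
      243 * (1 - D) ^ 4 / (3 - D) ^ 4 * (G * (1 + D) / 4 - D / 3) ≤
      16 * ∫ t in (0 : ℝ)..1,
        3 * t ^ 2 * max 0 (Ph ((1 - t) * (4 / (1 + D)) + t * G) - r t) := by
  set A : ℝ := 4 / (1 + D) with hAdef
  set c : ℝ := 4 * (3 - D) / (3 * (1 - D)) with hcdef
  set f : ℝ → ℝ := fun t => 3 * t ^ 2 * max 0 (Ph ((1 - t) * A + t * G) - r t) with hf
  have h1D : (0 : ℝ) < 1 + D := by linarith
  have h1mD : (0 : ℝ) < 1 - D := by linarith
  have h3D : (0 : ℝ) < 3 - D := by linarith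
  have hA2 : 2 < A := by rw [hAdef, lt_div_iff₀ h1D]; linarith
  have hA0 : 0 < A := by linarith
  have hc4 : 4 ≤ c := by rw [hcdef, le_div_iff₀ (by positivity)]; nlinarith
  have hc0 : 0 < c := by linarith
  have hfc : Continuous f := by
    refine Continuous.mul (by fun_prop) (continuous_const.max ?_)
    exact (Ph_continuous.comp (by fun_prop)).sub hr
  have hf0 : ∀ t, 0 ≤ f t := fun t => mul_nonneg (by positivity) (le_max_left _ _)
  have hfi : ∀ a b : ℝ, IntervalIntegrable f volume a b := fun a b => hfc.intervalIntegrable a b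
  -- pointwise bounds
  have hfge : ∀ t ∈ Icc (0 : ℝ) 1, 3 * t ^ 2 * (Ph ((1 - t) * A + t * G) - Ph (t * c)) ≤ f t := by
    intro t ht
    have h := hrb t ht
    refine mul_le_mul_of_nonneg_left ?_ (by positivity)
    exact le_trans (by linarith) (le_max_right _ _)
  rcases le_or_gt (D / 3) (G * (1 + D) / 4) with hG | hG
  · -- G large
    set T : ℝ := 2 / c with hT
    set t' : ℝ := A / (A + c - G) with ht'
    have hAcG : 0 < A + c - G := by linarith
    have hT0 : 0 < T := by positivity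
    have hTc : T * c = 2 := by rw [hT]; field_simp
    have ht'0 : 0 < t' := by positivity
    have ht'1 : t' ≤ 1 := by rw [ht', div_le_one hAcG]; linarith
    have ht'e : (1 - t') * A + t' * G = t' * c := by
      have : t' * (A + c - G) = A := by rw [ht']; field_simp
      linarith
    -- value at T is at least 2
    have hTs : 2 ≤ (1 - T) * A + T * G := by
      have hT' : T = 3 * (1 - D) / (2 * (3 - D)) := by
        rw [hT, hcdef]; field_simp; norm_num
      have h1 : A * (1 + D) = 4 := by rw [hAdef]; field_simp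
      have h2 : (1 - T) * (A * (1 + D)) + T * (G * (1 + D)) - 2 * (1 + D) ≥ 0 := by
        rw [h1]
        have : T * (G * (1 + D)) ≥ T * (4 * (D / 3)) := by
          apply mul_le_mul_of_nonneg_left _ hT0.le
          linarith
        have h3 : (1 - T) * 4 + T * (4 * (D / 3)) - 2 * (1 + D) = 0 := by
          rw [hT']; field_simp; ring
        linarith
      have h3 : 0 ≤ ((1 - T) * A + T * G - 2) * (1 + D) := by nlinarith
      have h4 := nonneg_of_mul_nonneg_left h3 h1D
      linarith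
    have hTt' : T ≤ t' := by
      -- T * (A + c - G) ≤ A
      rw [ht', le_div_iff₀ hAcG]
      nlinarith
    have hT1 : T ≤ 1 := hTt'.trans ht'1
    -- segment 1
    have i1 : (T ^ 3 - 16 * T ^ 3 / (A * ((1 - T) * A + T * G) ^ 3)) -
        ((0 : ℝ) ^ 3 - 16 * (0 : ℝ) ^ 3 / (A * ((1 - 0) * A + 0 * G) ^ 3)) ≤
        ∫ t in (0 : ℝ)..T, f t := by
      have hs : ∀ t ∈ Icc (0 : ℝ) T, 2 ≤ (1 - t) * A + t * G := by
        intro t ht
        -- linear function, ≥ 2 at the endpoints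
        have h1 : T * ((1 - t) * A + t * G - 2) =
            t * ((1 - T) * A + T * G - 2) + (T - t) * (A - 2) := by ring
        have h2 : 0 ≤ T * ((1 - t) * A + t * G - 2) := by
          rw [h1]
          have := mul_nonneg ht.1 (sub_nonneg.2 hTs)
          have := mul_nonneg (sub_nonneg.2 ht.2) (by linarith : 0 ≤ A - 2)
          linarith
        have := nonneg_of_mul_nonneg_right h2 hT0
        linarith
      refine seg (F := fun t => t ^ 3 - 16 * t ^ 3 / (A * ((1 - t) * A + t * G) ^ 3))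
        (F' := fun t => 3 * t ^ 2 - 3 * t ^ 2 * (16 / ((1 - t) * A + t * G) ^ 4)) hT0.le hfc ?_ ?_
      · intro t ht
        have := hs t ht
        exact (hasDeriv_C t).sub (hasDeriv_S hA0.ne' (by linarith))
      · intro t ht
        refine le_trans ?_ (hfge t ⟨ht.1, ht.2.trans hT1⟩)
        have htc : t * c ≤ 2 := by
          rw [← hTc]; exact mul_le_mul_of_nonneg_right ht.2 hc0.le
        rw [Ph_of_ge (hs t ht), Ph_of_le htc]
        apply le_of_eq; ring
    -- segment 2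
    have i2 : (-(48 / (c ^ 4 * t')) - 16 * t' ^ 3 / (A * ((1 - t') * A + t' * G) ^ 3)) -
        (-(48 / (c ^ 4 * T)) - 16 * T ^ 3 / (A * ((1 - T) * A + T * G) ^ 3)) ≤
        ∫ t in T..t', f t := by
      have hs : ∀ t ∈ Icc T t', t * c ≤ (1 - t) * A + t * G := by
        intro t ht
        have : t * (A + c - G) ≤ t' * (A + c - G) := mul_le_mul_of_nonneg_right ht.2 hAcG.le
        have h' : t' * (A + c - G) = A := by rw [ht']; field_simp
        linarith
      have htc : ∀ t ∈ Icc T t', 2 ≤ t * c := by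
        intro t ht
        rw [← hTc]; exact mul_le_mul_of_nonneg_right ht.1 hc0.le
      refine seg (F := fun t => -(48 / (c ^ 4 * t)) - 16 * t ^ 3 / (A * ((1 - t) * A + t * G) ^ 3))
        (F' := fun t => 3 * t ^ 2 * (16 / (t * c) ^ 4) -
          3 * t ^ 2 * (16 / ((1 - t) * A + t * G) ^ 4)) hTt' hfc ?_ ?_
      · intro t ht
        have h1 := hs t ht
        have h2 := htc t ht
        exact (hasDeriv_Q hc0.ne' (by have := ht.1; linarith)).sub
          (hasDeriv_S hA0.ne' (by linarith))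
      · intro t ht
        refine le_trans ?_ (hfge t ⟨hT0.le.trans ht.1, ht.2.trans ht'1⟩)
        rw [Ph_of_ge ((htc t ht).trans (hs t ht)), Ph_of_ge (htc t ht)]
        apply le_of_eq; ring
    have i3 : 0 ≤ ∫ t in t'..1, f t := seg_nonneg ht'1 fun t _ => hf0 t
    have hsum : ∫ t in (0 : ℝ)..1, f t =
        (∫ t in (0 : ℝ)..T, f t) + (∫ t in T..t', f t) + ∫ t in t'..1, f t := by
      rw [intervalIntegral.integral_add_adjacent_intervals (hfi _ _) (hfi _ _),
        intervalIntegral.integral_add_adjacent_intervals (hfi _ _) (hfi _ _)]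
    have hval : 27 * (1 - D) ^ 4 / (3 - D) ^ 3 +
        243 * (1 - D) ^ 4 / (3 - D) ^ 4 * (G * (1 + D) / 4 - D / 3) =
        16 * (T ^ 3 - 48 / (c ^ 4 * t') - 16 * t' ^ 3 / (A * (t' * c) ^ 3) +
          48 / (c ^ 4 * T)) := by
      have e1 : 16 * t' ^ 3 / (A * (t' * c) ^ 3) = 16 / (A * c ^ 3) := by
        field_simp
      have e2 : 48 / (c ^ 4 * t') = 48 * (A + c - G) / (c ^ 4 * A) := by
        rw [ht']; field_simp
      rw [e1, e2, hT, hAdef, hcdef]
      field_simp
      ring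
    rw [ht'e] at i2
    rw [hval, hsum]
    simp only [ne_eq, OfNat.ofNat_ne_zero, not_false_eq_true, zero_pow, mul_zero, zero_div,
      sub_zero] at i1
    linarith
  · -- G small
    have hu : G * (1 + D) < 4 * (D / 3) := by linarith
    have hGA : 0 < A - G := by
      have : G < 2 := by nlinarith
      linarith
    set t1 : ℝ := (A - 2) / (A - G) with ht1
    have ht10 : 0 < t1 := by apply div_pos <;> linarith
    have ht1s : (1 - t1) * A + t1 * G = 2 := by
      have : t1 * (A - G) = A - 2 := by rw [ht1]; field_simp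
      linarith
    set u : ℝ := G * (1 + D) / 4 with hudef
    have hu1 : u < 1 := by linarith
    have hu0 : 0 ≤ u := by positivity
    have ht1' : t1 = (1 - D) / (2 * (1 - u)) := by
      have h1 : A - 2 = 2 * (1 - D) / (1 + D) := by rw [hAdef]; field_simp; ring
      have h2 : A - G = 4 * (1 - u) / (1 + D) := by rw [hAdef, hudef]; field_simp
      have : (1 - u) ≠ 0 := by linarith
      rw [ht1, h1, h2]; field_simp; norm_num
    have hT' : t1 * c ≤ 2 := by
      rw [ht1', hcdef]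
      have h3 : (0 : ℝ) < 1 - u := by linarith
      rw [div_mul_div_comm, div_le_iff₀ (by positivity)]
      nlinarith
    have ht11 : t1 ≤ 1 := by nlinarith
    have i1 : (t1 ^ 3 - 16 * t1 ^ 3 / (A * ((1 - t1) * A + t1 * G) ^ 3)) -
        ((0 : ℝ) ^ 3 - 16 * (0 : ℝ) ^ 3 / (A * ((1 - 0) * A + 0 * G) ^ 3)) ≤
        ∫ t in (0 : ℝ)..t1, f t := by
      have hs : ∀ t ∈ Icc (0 : ℝ) t1, 2 ≤ (1 - t) * A + t * G := by
        intro t ht
        have : t * (A - G) ≤ t1 * (A - G) := mul_le_mul_of_nonneg_right ht.2 hGA.le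
        linarith
      refine seg (F := fun t => t ^ 3 - 16 * t ^ 3 / (A * ((1 - t) * A + t * G) ^ 3))
        (F' := fun t => 3 * t ^ 2 - 3 * t ^ 2 * (16 / ((1 - t) * A + t * G) ^ 4)) ht10.le hfc ?_ ?_
      · intro t ht
        have := hs t ht
        exact (hasDeriv_C t).sub (hasDeriv_S hA0.ne' (by linarith))
      · intro t ht
        refine le_trans ?_ (hfge t ⟨ht.1, ht.2.trans ht11⟩)
        have htc : t * c ≤ 2 := le_trans (mul_le_mul_of_nonneg_right ht.2 hc0.le) hT'
        rw [Ph_of_ge (hs t ht), Ph_of_le htc]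
        apply le_of_eq; ring
    have i3 : 0 ≤ ∫ t in t1..1, f t := seg_nonneg ht11 fun t _ => hf0 t
    have hsum : ∫ t in (0 : ℝ)..1, f t = (∫ t in (0 : ℝ)..t1, f t) + ∫ t in t1..1, f t := by
      rw [intervalIntegral.integral_add_adjacent_intervals (hfi _ _) (hfi _ _)]
    rw [ht1s] at i1
    have hval : 16 * (t1 ^ 3 - 16 * t1 ^ 3 / (A * 2 ^ 3)) = (1 - D) ^ 4 / (1 - u) ^ 3 := by
      have h3 : (1 - u) ≠ 0 := by linarith
      rw [ht1', hAdef]
      field_simp
      ring
    have hconv : 27 * (1 - D) ^ 4 / (3 - D) ^ 3 +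
        243 * (1 - D) ^ 4 / (3 - D) ^ 4 * (u - D / 3) ≤ (1 - D) ^ 4 / (1 - u) ^ 3 := by
      have hx : 0 < 1 - u := by linarith
      have hx0 : 0 < 1 - D / 3 := by linarith
      have key : ∀ x y : ℝ, 0 < x → 0 < y → 1 / y ^ 3 + 3 / y ^ 4 * (y - x) ≤ 1 / x ^ 3 := by
        intro x y hx hy
        have : 1 / x ^ 3 - (1 / y ^ 3 + 3 / y ^ 4 * (y - x)) =
            (y - x) ^ 2 * (y ^ 2 + 2 * y * x + 3 * x ^ 2) / (x ^ 3 * y ^ 4) := by
          field_simp
          ring
        have h2 : 0 ≤ (y - x) ^ 2 * (y ^ 2 + 2 * y * x + 3 * x ^ 2) / (x ^ 3 * y ^ 4) := by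
          positivity
        linarith
      have h := key (1 - u) (1 - D / 3) hx hx0
      have h4 : 0 ≤ (1 - D) ^ 4 := by positivity
      have h5 := mul_le_mul_of_nonneg_left h h4
      have e1 : (1 - D) ^ 4 * (1 / (1 - D / 3) ^ 3 + 3 / (1 - D / 3) ^ 4 * (1 - D / 3 - (1 - u))) =
          27 * (1 - D) ^ 4 / (3 - D) ^ 3 + 243 * (1 - D) ^ 4 / (3 - D) ^ 4 * (u - D / 3) := by
        have : (1 - D / 3) = (3 - D) / 3 := by ring
        rw [this]
        field_simp
        ring
      rw [e1] at h5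
      calc _ ≤ _ := h5
        _ = _ := by ring
    rw [hsum]
    simp only [ne_eq, OfNat.ofNat_ne_zero, not_false_eq_true, zero_pow, mul_zero, zero_div,
      sub_zero] at i1
    linarith

/-- `16 ∫ 3t² Φ((1-t) 4/(1+D)) ≥ (1-D)^4` -/
lemma int_p0 (D : ℝ) (hD0 : 0 ≤ D) (hD1 : D < 1) :
    (1 - D) ^ 4 / 16 ≤ ∫ t in (0 : ℝ)..1, 3 * t ^ 2 * Ph ((1 - t) * (4 / (1 + D))) := by
  set A : ℝ := 4 / (1 + D) with hAdef
  set f : ℝ → ℝ := fun t => 3 * t ^ 2 * Ph ((1 - t) * A) with hf
  have h1D : (0 : ℝ) < 1 + D := by linarith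
  have h1mD : (0 : ℝ) < 1 - D := by linarith
  have hA2 : 2 < A := by rw [hAdef, lt_div_iff₀ h1D]; linarith
  have hA0 : 0 < A := by linarith
  have hA1 : A * (1 + D) = 4 := by rw [hAdef]; field_simp
  have hfc : Continuous f := Continuous.mul (by fun_prop) (Ph_continuous.comp (by fun_prop))
  have hf0 : ∀ t, 0 ≤ f t := fun t => mul_nonneg (by positivity) (Ph_nonneg _)
  have hfi : ∀ a b : ℝ, IntervalIntegrable f volume a b := fun a b => hfc.intervalIntegrable a b
  set t1 : ℝ := (1 - D) / 2 with ht1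
  have ht10 : 0 ≤ t1 := by positivity
  have ht11 : t1 ≤ 1 := by rw [ht1]; linarith
  have ht1s : (1 - t1) * A + t1 * 0 = 2 := by
    have : (1 - t1) = (1 + D) / 2 := by rw [ht1]; ring
    rw [this]; linarith
  have i1 : (t1 ^ 3 - 16 * t1 ^ 3 / (A * ((1 - t1) * A + t1 * 0) ^ 3)) -
      ((0 : ℝ) ^ 3 - 16 * (0 : ℝ) ^ 3 / (A * ((1 - 0) * A + 0 * 0) ^ 3)) ≤
      ∫ t in (0 : ℝ)..t1, f t := by
    have hs : ∀ t ∈ Icc (0 : ℝ) t1, 2 ≤ (1 - t) * A + t * 0 := by
      intro t ht
      have : t * A ≤ t1 * A := mul_le_mul_of_nonneg_right ht.2 hA0.le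
      linarith
    refine seg (F := fun t => t ^ 3 - 16 * t ^ 3 / (A * ((1 - t) * A + t * 0) ^ 3))
      (F' := fun t => 3 * t ^ 2 - 3 * t ^ 2 * (16 / ((1 - t) * A + t * 0) ^ 4)) ht10 hfc ?_ ?_
    · intro t ht
      have := hs t ht
      exact (hasDeriv_C t).sub (hasDeriv_S hA0.ne' (by linarith))
    · intro t ht
      have h := hs t ht
      have h' : 2 ≤ (1 - t) * A := by linarith
      have e : (1 - t) * A + t * 0 = (1 - t) * A := by ring
      rw [hf, e]
      simp only
      rw [Ph_of_ge h']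
      apply le_of_eq; ring
  have i3 : 0 ≤ ∫ t in t1..1, f t := seg_nonneg ht11 fun t _ => hf0 t
  have hsum : ∫ t in (0 : ℝ)..1, f t = (∫ t in (0 : ℝ)..t1, f t) + ∫ t in t1..1, f t := by
    rw [intervalIntegral.integral_add_adjacent_intervals (hfi _ _) (hfi _ _)]
  rw [ht1s] at i1
  have hval : (1 - D) ^ 4 / 16 = (t1 ^ 3 - 16 * t1 ^ 3 / (A * 2 ^ 3)) := by
    rw [ht1, hAdef]
    field_simp
    ring
  rw [hsum, hval]
  simp only [ne_eq, OfNat.ofNat_ne_zero, not_false_eq_true, zero_pow, mul_zero, zero_div,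
    sub_zero] at i1
  linarith

theorem g2' (D G : ℝ) (hD0 : 0 ≤ D) (hD1 : D < 1) (hG0 : 0 ≤ G)
    (r : ℝ → ℝ) (hr : Continuous r) :
    (1 - D) ^ 4 -
      16 * ∫ t in (0 : ℝ)..1, 3 * t ^ 2 * min (Ph ((1 - t) * (4 / (1 + D)))) (r t) ≤
      16 * ∫ t in (0 : ℝ)..1,
        3 * t ^ 2 * max 0 (Ph ((1 - t) * (4 / (1 + D)) + t * G) - r t) := by
  have hp := int_p0 D hD0 hD1
  set A : ℝ := 4 / (1 + D) with hAdef
  have c1 : Continuous fun t : ℝ => 3 * t ^ 2 * Ph ((1 - t) * A) :=
    Continuous.mul (by fun_prop) (Ph_continuous.comp (by fun_prop))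
  have c2 : Continuous fun t : ℝ => 3 * t ^ 2 * min (Ph ((1 - t) * A)) (r t) :=
    Continuous.mul (by fun_prop) ((Ph_continuous.comp (by fun_prop)).min hr)
  have c3 : Continuous fun t : ℝ => 3 * t ^ 2 * max 0 (Ph ((1 - t) * A + t * G) - r t) := by
    refine Continuous.mul (by fun_prop) (continuous_const.max ?_)
    exact (Ph_continuous.comp (by fun_prop)).sub hr
  have key : ∫ t in (0 : ℝ)..1, 3 * t ^ 2 * Ph ((1 - t) * A) ≤
      (∫ t in (0 : ℝ)..1, 3 * t ^ 2 * min (Ph ((1 - t) * A)) (r t)) +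
      ∫ t in (0 : ℝ)..1, 3 * t ^ 2 * max 0 (Ph ((1 - t) * A + t * G) - r t) := by
    rw [← intervalIntegral.integral_add (c2.intervalIntegrable _ _) (c3.intervalIntegrable _ _)]
    apply intervalIntegral.integral_mono_on zero_le_one (c1.intervalIntegrable _ _)
      ((c2.add c3).intervalIntegrable _ _)
    intro t ht
    simp only [Pi.add_apply]
    rw [← mul_add]
    apply mul_le_mul_of_nonneg_left _ (by positivity)
    have hmono : Ph ((1 - t) * A) ≤ Ph ((1 - t) * A + t * G) :=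
      Ph_mono (by have := mul_nonneg ht.1 hG0; linarith)
    rcases le_total (Ph ((1 - t) * A)) (r t) with h | h
    · rw [min_eq_left h]
      have := le_max_left 0 (Ph ((1 - t) * A + t * G) - r t)
      linarith
    · rw [min_eq_right h]
      have := le_max_right 0 (Ph ((1 - t) * A + t * G) - r t)
      linarith
  linarith

theorem g2 (D w G : ℝ) (hD0 : 0 ≤ D) (hDw : D ≤ w) (hw1 : w < 1) (hG0 : 0 ≤ G) (hG4 : G ≤ 4)
    (r : ℝ → ℝ) (hr : Continuous r) (_hr0 : ∀ t ∈ Icc (0 : ℝ) 1, 0 ≤ r t)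
    (hrb : ∀ t ∈ Icc (0 : ℝ) 1, r t ≤ Ph (max ((1 - t) * (4 / (1 + D))) (t * (4 / (1 - w))))) :
    (1 - D) ^ 4 + 3 * (1 - w) ^ 4 * (G * (1 + D) / 4) -
      16 * ∫ t in (0 : ℝ)..1, 3 * t ^ 2 * min (Ph ((1 - t) * (4 / (1 + D)))) (r t) ≤
      16 * ∫ t in (0 : ℝ)..1,
        3 * t ^ 2 * max 0 (Ph ((1 - t) * (4 / (1 + D)) + t * G) - r t) := by
  have hD1 : D < 1 := by linarith
  have hp := int_p0 D hD0 hD1
  set A : ℝ := 4 / (1 + D) with hAdef
  set c : ℝ := 4 / (1 - w) with hcdef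
  have h1D : (0 : ℝ) < 1 + D := by linarith
  have h1mD : (0 : ℝ) < 1 - D := by linarith
  have h1mw : (0 : ℝ) < 1 - w := by linarith
  have hA2 : 2 < A := by rw [hAdef, lt_div_iff₀ h1D]; linarith
  have hA0 : 0 < A := by linarith
  have hA1 : A * (1 + D) = 4 := by rw [hAdef]; field_simp
  have hc1 : c * (1 - w) = 4 := by rw [hcdef]; field_simp
  have hc4 : 4 ≤ c := by rw [hcdef, le_div_iff₀ (by positivity)]; nlinarith
  have hc0 : 0 < c := by linarith
  have c1 : Continuous fun t : ℝ => 3 * t ^ 2 * Ph ((1 - t) * A) :=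
    Continuous.mul (by fun_prop) (Ph_continuous.comp (by fun_prop))
  have c2 : Continuous fun t : ℝ => 3 * t ^ 2 * min (Ph ((1 - t) * A)) (r t) :=
    Continuous.mul (by fun_prop) ((Ph_continuous.comp (by fun_prop)).min hr)
  have c3 : Continuous fun t : ℝ => 3 * t ^ 2 * max 0 (Ph ((1 - t) * A + t * G) - r t) := by
    refine Continuous.mul (by fun_prop) (continuous_const.max ?_)
    exact (Ph_continuous.comp (by fun_prop)).sub hr
  set f : ℝ → ℝ := fun t => 3 * t ^ 2 * max 0 (Ph ((1 - t) * A + t * G) -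
    Ph (max ((1 - t) * A) (t * c))) with hf
  have hfc : Continuous f := by
    refine Continuous.mul (by fun_prop) (continuous_const.max ?_)
    refine (Ph_continuous.comp (by fun_prop)).sub (Ph_continuous.comp ?_)
    exact Continuous.max (by fun_prop) (by fun_prop)
  have hf0 : ∀ t, 0 ≤ f t := fun t => mul_nonneg (by positivity) (le_max_left _ _)
  have hfi : ∀ a b : ℝ, IntervalIntegrable f volume a b := fun a b => hfc.intervalIntegrable a b
  have key : (∫ t in (0 : ℝ)..1, 3 * t ^ 2 * Ph ((1 - t) * A)) + ∫ t in (0 : ℝ)..1, f t ≤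
      (∫ t in (0 : ℝ)..1, 3 * t ^ 2 * min (Ph ((1 - t) * A)) (r t)) +
      ∫ t in (0 : ℝ)..1, 3 * t ^ 2 * max 0 (Ph ((1 - t) * A + t * G) - r t) := by
    rw [← intervalIntegral.integral_add (c2.intervalIntegrable _ _) (c3.intervalIntegrable _ _),
      ← intervalIntegral.integral_add (c1.intervalIntegrable _ _) (hfi _ _)]
    apply intervalIntegral.integral_mono_on zero_le_one ((c1.add hfc).intervalIntegrable _ _)
      ((c2.add c3).intervalIntegrable _ _)
    intro t ht
    simp only [hf, Pi.add_apply]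
    rw [← mul_add, ← mul_add]
    apply mul_le_mul_of_nonneg_left _ (by positivity)
    have hmono : Ph ((1 - t) * A) ≤ Ph ((1 - t) * A + t * G) :=
      Ph_mono (by have := mul_nonneg ht.1 hG0; linarith)
    have hb := hrb t ht
    have h1 : Ph ((1 - t) * A) ≤ Ph (max ((1 - t) * A) (t * c)) := Ph_mono (le_max_left _ _)
    rcases le_total (Ph ((1 - t) * A)) (r t) with h | h
    · rw [min_eq_left h]
      have h2 : max 0 (Ph ((1 - t) * A + t * G) - Ph (max ((1 - t) * A) (t * c))) ≤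
          max 0 (Ph ((1 - t) * A + t * G) - r t) := max_le_max le_rfl (by linarith)
      linarith
    · rw [min_eq_right h]
      have h2 : max 0 (Ph ((1 - t) * A + t * G) - Ph (max ((1 - t) * A) (t * c))) ≤
          Ph ((1 - t) * A + t * G) - Ph ((1 - t) * A) := max_le (by linarith) (by linarith)
      have := le_max_right 0 (Ph ((1 - t) * A + t * G) - r t)
      linarith
  -- the integral of f
  have hAc : 0 < A + c := by linarith
  have hAcG : 0 < A + c - G := by linarith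
  set ta : ℝ := A / (A + c) with hta
  set tb : ℝ := A / (A + c - G) with htb
  have hta0 : 0 < ta := by positivity
  have htb0 : 0 < tb := by positivity
  have hta1 : ta * (A + c) = A := by rw [hta]; field_simp
  have htb1 : tb * (A + c - G) = A := by rw [htb]; field_simp
  have htab : ta ≤ tb := by
    rw [hta, htb]
    apply div_le_div_of_nonneg_left hA0.le hAcG (by linarith)
  have htb2 : tb ≤ 1 := by rw [htb, div_le_one hAcG]; linarith
  have hta2 : 2 ≤ ta * c := by
    rw [hta, div_mul_eq_mul_div, le_div_iff₀ hAc]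
    -- 2 (A + c) ≤ A c
    have e : (A * c - 2 * (A + c)) * ((1 + D) * (1 - w)) = 8 * (w - D) := by
      have : (A * c - 2 * (A + c)) * ((1 + D) * (1 - w)) =
        (A * (1 + D)) * (c * (1 - w)) - 2 * ((A * (1 + D)) * (1 - w)
          + (c * (1 - w)) * (1 + D)) := by ring
      rw [this, hA1, hc1]; ring
    have h0 : 0 ≤ (A * c - 2 * (A + c)) * ((1 + D) * (1 - w)) := by rw [e]; linarith
    have := nonneg_of_mul_nonneg_left h0 (by positivity)
    linarith
  have hf1 : ∀ t ∈ Icc (0 : ℝ) ta, 2 ≤ (1 - t) * A ∧ t * c ≤ (1 - t) * A := by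
    intro t ht
    have h1 : t * (A + c) ≤ ta * (A + c) := mul_le_mul_of_nonneg_right ht.2 hAc.le
    have h2 : t * A ≤ ta * A := mul_le_mul_of_nonneg_right ht.2 hA0.le
    constructor <;> nlinarith
  have i1 : (16 * ta ^ 3 / (A * ((1 - ta) * A + ta * 0) ^ 3) -
        16 * ta ^ 3 / (A * ((1 - ta) * A + ta * G) ^ 3)) -
      (16 * (0 : ℝ) ^ 3 / (A * ((1 - 0) * A + 0 * 0) ^ 3) -
        16 * (0 : ℝ) ^ 3 / (A * ((1 - 0) * A + 0 * G) ^ 3)) ≤ ∫ t in (0 : ℝ)..ta, f t := by
    refine seg (F := fun t => 16 * t ^ 3 / (A * ((1 - t) * A + t * 0) ^ 3) -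
        16 * t ^ 3 / (A * ((1 - t) * A + t * G) ^ 3))
      (F' := fun t => 3 * t ^ 2 * (16 / ((1 - t) * A + t * 0) ^ 4) -
        3 * t ^ 2 * (16 / ((1 - t) * A + t * G) ^ 4)) hta0.le hfc ?_ ?_
    · intro t ht
      have h := hf1 t ht
      have h3 := mul_nonneg ht.1 hG0
      exact (hasDeriv_S hA0.ne' (by linarith)).sub (hasDeriv_S hA0.ne' (by linarith))
    · intro t ht
      have h := hf1 t ht
      have h3 := mul_nonneg ht.1 hG0
      simp only [hf]
      rw [max_eq_left h.2, Ph_of_ge h.1, Ph_of_ge (by linarith : 2 ≤ (1 - t) * A + t * G),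
        mul_zero, add_zero, ← mul_sub]
      apply mul_le_mul_of_nonneg_left _ (by positivity)
      refine le_trans (le_of_eq ?_) (le_max_right _ _)
      ring
  have i2 : (-(48 / (c ^ 4 * tb)) - 16 * tb ^ 3 / (A * ((1 - tb) * A + tb * G) ^ 3)) -
      (-(48 / (c ^ 4 * ta)) - 16 * ta ^ 3 / (A * ((1 - ta) * A + ta * G) ^ 3)) ≤
      ∫ t in ta..tb, f t := by
    have hs : ∀ t ∈ Icc ta tb, t * c ≤ (1 - t) * A + t * G := by
      intro t ht
      have : t * (A + c - G) ≤ tb * (A + c - G) := mul_le_mul_of_nonneg_right ht.2 hAcG.le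
      linarith
    have hs2 : ∀ t ∈ Icc ta tb, (1 - t) * A ≤ t * c := by
      intro t ht
      have : ta * (A + c) ≤ t * (A + c) := mul_le_mul_of_nonneg_right ht.1 hAc.le
      linarith
    have htc : ∀ t ∈ Icc ta tb, 2 ≤ t * c := by
      intro t ht
      exact hta2.trans (mul_le_mul_of_nonneg_right ht.1 hc0.le)
    refine seg (F := fun t => -(48 / (c ^ 4 * t)) - 16 * t ^ 3 / (A * ((1 - t) * A + t * G) ^ 3))
      (F' := fun t => 3 * t ^ 2 * (16 / (t * c) ^ 4) -
        3 * t ^ 2 * (16 / ((1 - t) * A + t * G) ^ 4)) htab hfc ?_ ?_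
    · intro t ht
      have h1 := hs t ht
      have h2 := htc t ht
      exact (hasDeriv_Q hc0.ne' (by have := ht.1; linarith)).sub
        (hasDeriv_S hA0.ne' (by linarith))
    · intro t ht
      simp only [hf]
      rw [max_eq_right (hs2 t ht), Ph_of_ge (htc t ht),
        Ph_of_ge ((htc t ht).trans (hs t ht)), ← mul_sub]
      apply mul_le_mul_of_nonneg_left _ (by positivity)
      refine le_trans (le_of_eq ?_) (le_max_right _ _)
      ring
  have i3 : 0 ≤ ∫ t in tb..1, f t := seg_nonneg htb2 fun t _ => hf0 t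
  have hsum : ∫ t in (0 : ℝ)..1, f t =
      (∫ t in (0 : ℝ)..ta, f t) + (∫ t in ta..tb, f t) + ∫ t in tb..1, f t := by
    rw [intervalIntegral.integral_add_adjacent_intervals (hfi _ _) (hfi _ _),
      intervalIntegral.integral_add_adjacent_intervals (hfi _ _) (hfi _ _)]
  have hta' : (1 - ta) * A + ta * 0 = ta * c := by linarith
  have htb' : (1 - tb) * A + tb * G = tb * c := by linarith
  have hval : 16 * (16 * ta ^ 3 / (A * (ta * c) ^ 3) - 48 / (c ^ 4 * tb) -
      16 * tb ^ 3 / (A * (tb * c) ^ 3) + 48 / (c ^ 4 * ta)) =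
      3 * (1 - w) ^ 4 * (G * (1 + D) / 4) := by
    have e1 : 16 * tb ^ 3 / (A * (tb * c) ^ 3) = 16 / (A * c ^ 3) := by
      field_simp
    have e1' : 16 * ta ^ 3 / (A * (ta * c) ^ 3) = 16 / (A * c ^ 3) := by
      field_simp
    have e2 : 48 / (c ^ 4 * tb) = 48 * (A + c - G) / (c ^ 4 * A) := by
      rw [htb]; field_simp
    have e3 : 48 / (c ^ 4 * ta) = 48 * (A + c) / (c ^ 4 * A) := by
      rw [hta]; field_simp
    rw [e1, e1', e2, e3, hAdef, hcdef]
    field_simp
    ring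
  rw [hta'] at i1
  rw [htb'] at i2
  simp only [ne_eq, OfNat.ofNat_ne_zero, not_false_eq_true, zero_pow, mul_zero, zero_div,
    sub_zero] at i1
  linarith

end Helper74.M3G

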