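import Pool.Agent.Helper73.M3.Spec
import Pool.Agent.Helper74.M3.G12

/-!
# Parts G1, G2, G2' in the form of the interface
-/

namespace Helper74.M3G

theorem S_G1 : Helper73.M3.S_G1 := g1
theorem S_G2 : Helper73.M3.S_G2 := g2
theorem S_G2' : Helper73.M3.S_G2' := g2'

end Helper74.M3G
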